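import Mathlib
import Pool.Agent.N485.TC.Linked

set_option autoImplicit false

/-!
MP_3a3191_gt: Q1, answered positively.  If Jones's set function `T` is continuous for the
continuum `S` and `T (p)` has nonempty interior for some point `p`, then `S` is indecomposable.
-/

open TopologicalSpace

universe u

namespace Pool.Agent.Results.MP_3a3191_gt.BellamyIndecomposable

/-- `W` is a subcontinuum of `S`: a closed, connected, nonempty subset. -/
def IsSubcontinuum {S : Type u} [TopologicalSpace S] (W : Set S) : Prop :=
  IsClosed W ∧ IsConnected W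

/-- Jones's set function: `T(A)` is the set of points `p` of `S` that have no subcontinuum `W`
with `p` in the interior of `W` and `W ∩ A = ∅`. -/
def jonesT {S : Type u} [TopologicalSpace S] (A : Set S) : Set S :=
  {p | ¬ ∃ W : Set S, IsSubcontinuum W ∧ p ∈ interior W ∧ W ∩ A = ∅}

theorem jonesT_eq {S : Type u} [TopologicalSpace S] (A : Set S) :
    jonesT A = Pool.Agent.N485.TC.jonesT A := by
  ext p
  unfold jonesT Pool.Agent.N485.TC.jonesT IsSubcontinuum
  simp only [Set.mem_ofPred_eq, Set.mem_compl_iff, and_assoc]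

theorem isClosed_jonesT {S : Type u} [TopologicalSpace S] (A : Set S) : IsClosed (jonesT A) := by
  rw [jonesT_eq]
  exact Pool.Agent.N485.TC.isClosed_T A

theorem subset_jonesT {S : Type u} [TopologicalSpace S] (A : Set S) : A ⊆ jonesT A := by
  rw [jonesT_eq]
  exact Pool.Agent.N485.TC.subset_T A

/-- Jones's set function as a self-map of the hyperspace of nonempty closed (that is, nonempty
compact) subsets of the compact space `S`; Mathlib's `NonemptyCompacts S` carries the Vietoris
topology. -/
def jonesMap (S : Type u) [TopologicalSpace S] [CompactSpace S] :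
    NonemptyCompacts S → NonemptyCompacts S :=
  fun A => ⟨⟨jonesT (A : Set S), (isClosed_jonesT _).isCompact⟩,
    A.nonempty.mono (subset_jonesT _)⟩

/-- `S` is indecomposable: it is not the union of two proper subcontinua. -/
def Indecomposable (S : Type u) [TopologicalSpace S] : Prop :=
  ¬ ∃ K L : Set S, IsSubcontinuum K ∧ IsSubcontinuum L ∧ K ≠ Set.univ ∧ L ≠ Set.univ ∧
    K ∪ L = Set.univ

theorem isLsc_of_continuous {S : Type u} [TopologicalSpace S] [CompactSpace S] [T2Space S]
    [ConnectedSpace S] (h : Continuous (jonesMap S)) : Pool.Agent.N485.TC.IsLsc S := by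
  intro A hA V hV hAV
  have hAne : A.Nonempty := by
    rw [Set.nonempty_iff_ne_empty]
    rintro rfl
    rw [Pool.Agent.N485.TC.T_empty, Set.empty_inter] at hAV
    exact Set.not_nonempty_empty hAV
  have hopen := (NonemptyCompacts.isOpen_inter_nonempty_of_isOpen hV).preimage h
  have hmem : (⟨⟨A, hA.isCompact⟩, hAne⟩ : NonemptyCompacts S) ∈
      jonesMap S ⁻¹' {K : NonemptyCompacts S | ((K : Set S) ∩ V).Nonempty} := by
    change (jonesT A ∩ V).Nonempty
    rw [jonesT_eq]
    exact hAV
  obtain ⟨_, ⟨u, ⟨hufin, hune, huo⟩, rfl⟩, hAu, husub⟩ :=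
    NonemptyCompacts.isTopologicalBasis.exists_subset_of_mem_open hmem hopen
  refine ⟨u, hufin, huo, hAu.1, hAu.2, ?_⟩
  intro B hB hBsub hBmeet
  have hBne : B.Nonempty := by
    obtain ⟨U, hU⟩ := hune
    exact (hBmeet U hU).mono Set.inter_subset_left
  have hBmem : (⟨⟨B, hB.isCompact⟩, hBne⟩ : NonemptyCompacts S) ∈
      {K : NonemptyCompacts S | (K : Set S) ⊆ ⋃₀ u ∧ ∀ U ∈ u, ((K : Set S) ∩ U).Nonempty} :=
    ⟨hBsub, hBmeet⟩
  have := husub hBmem
  change (jonesT B ∩ V).Nonempty at this
  rw [jonesT_eq] at this
  exact this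

/-- Let `S` be a continuum (compact connected Hausdorff space) for which Jones's set function `T`
is continuous, and suppose `T({p})` has nonempty interior for some point `p`.  Then `S` is
indecomposable. -/
theorem result (S : Type u) [TopologicalSpace S] [CompactSpace S] [T2Space S] [ConnectedSpace S]
    (hT : Continuous (jonesMap S)) (p : S) (hp : (interior (jonesT {p})).Nonempty) :
    Indecomposable S := by
  rintro ⟨K, L, ⟨hK, hKc⟩, ⟨hL, hLc⟩, hKne, hLne, hKL⟩
  rw [jonesT_eq] at hp
  rcases Pool.Agent.N485.TC.indecomposable_of_lsc (isLsc_of_continuous hT) hp hK hKc hL hLc hKL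
    with h | h
  · exact hKne h
  · exact hLne h

end Pool.Agent.Results.MP_3a3191_gt.BellamyIndecomposable
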